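import Pool.Agent.Q120.FA.Stm

set_option autoImplicit false

/-!
# Project FA (helper120), job AS: the `L^p` norm of a combination, `p > 2`
-/

namespace Pool.Agent.Q129.FA

open MeasureTheory Filter Topology Set
open Pool.Agent.Q120.FA
open scoped ENNReal

/-! ## The saw-tooth function and the sums -/

theorem ps_le (x : ℝ) : |ps x| ≤ 1 / 2 := by
  unfold ps
  have h0 := Int.fract_nonneg x
  have h1 := (Int.fract_lt_one x).le
  rw [abs_le]
  constructor <;> linarith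

theorem ps_meas : Measurable ps := measurable_fract.sub_const _

theorem ps_per : Function.Periodic ps 1 := fun x => by
  unfold ps
  rw [Int.fract_add_one]

theorem bdd_int {f : ℝ → ℝ} (hf : Measurable f) {M : ℝ} (hM : ∀ x, |f x| ≤ M) (s : Set ℝ)
    (hs : volume s ≠ ⊤) : IntegrableOn f s :=
  Measure.integrableOn_of_bounded hs hf.aestronglyMeasurable (M := M)
    (Eventually.of_forall fun x => by rw [Real.norm_eq_abs]; exact hM x)

theorem bdd_ii {f : ℝ → ℝ} (hf : Measurable f) {M : ℝ} (hM : ∀ x, |f x| ≤ M) (a b : ℝ) :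
    IntervalIntegrable f volume a b := by
  rw [intervalIntegrable_iff]
  exact bdd_int hf hM _ (by simp [uIoc])

theorem ps_ii (a b : ℝ) : IntervalIntegrable ps volume a b := bdd_ii ps_meas ps_le a b

theorem S_meas (D : ℕ) : Measurable (S D) := by
  unfold S
  exact Finset.measurable_sum _ fun d _ => ps_meas.comp (measurable_const_mul _)

theorem S_le (D : ℕ) (t : ℝ) : |S D t| ≤ D := by
  unfold S
  refine (Finset.abs_sum_le_sum_abs _ _).trans ?_
  calc ∑ d ∈ Finset.Icc 1 D, |ps ((d : ℝ) * t)| ≤ ∑ d ∈ Finset.Icc 1 D, (1 : ℝ) :=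
        Finset.sum_le_sum fun d _ => (ps_le _).trans (by norm_num)
    _ = D := by simp

theorem S_per (D : ℕ) : Function.Periodic (S D) 1 := fun t => by
  unfold S
  refine Finset.sum_congr rfl fun d _ => ?_
  rw [mul_add, mul_one]
  have := ps_per.nat_mul d ((d : ℝ) * t)
  rwa [mul_one] at this

/-- `∑ |b m|` -/
noncomputable def BB (K : ℕ) (b : ℕ → ℝ) : ℝ := ∑ m ∈ Finset.Icc 1 K, |b m|

theorem BB_nonneg (K : ℕ) (b : ℕ → ℝ) : 0 ≤ BB K b := Finset.sum_nonneg fun _ _ => abs_nonneg _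

theorem G_bd {K : ℕ} {b : ℕ → ℝ} {N : ℕ} {t M : ℝ} (h : ∀ m ∈ Finset.Icc 1 K, |S (N / m) t| ≤ M) :
    |G K b N t| ≤ BB K b * M := by
  unfold G BB
  rw [Finset.sum_mul]
  refine (Finset.abs_sum_le_sum_abs _ _).trans (Finset.sum_le_sum fun m hm => ?_)
  rw [abs_mul]
  exact mul_le_mul_of_nonneg_left (h m hm) (abs_nonneg _)

theorem G_le (K : ℕ) (b : ℕ → ℝ) (N : ℕ) (t : ℝ) : |G K b N t| ≤ BB K b * N := by
  refine G_bd fun m _ => (S_le _ t).trans ?_
  exact_mod_cast Nat.div_le_self N m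

theorem G_meas (K : ℕ) (b : ℕ → ℝ) (N : ℕ) : Measurable (G K b N) := by
  unfold G
  exact Finset.measurable_sum _ fun m _ => (S_meas _).const_mul _

theorem G_per (K : ℕ) (b : ℕ → ℝ) (N : ℕ) : Function.Periodic (G K b N) 1 := fun t => by
  unfold G
  exact Finset.sum_congr rfl fun m _ => by rw [S_per]

/-! ## The profile -/

theorem psi_one : ∫ x in (0 : ℝ)..1, ps x = 0 := by
  rw [intervalIntegral.integral_of_le zero_le_one, integral_Ioc_eq_integral_Ioo]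
  have h : ∫ x in Ioo (0 : ℝ) 1, ps x = ∫ x in Ioo (0 : ℝ) 1, (x - 1 / 2) := by
    refine setIntegral_congr_fun measurableSet_Ioo fun x hx => ?_
    unfold ps
    rw [Int.fract_eq_self.2 ⟨hx.1.le, hx.2⟩]
  rw [h, ← integral_Ioc_eq_integral_Ioo, ← intervalIntegral.integral_of_le zero_le_one,
    intervalIntegral.integral_sub (by simp) (by simp)]
  simp

theorem psi_le (y : ℝ) : |∫ x in (0 : ℝ)..y, ps x| ≤ 1 / 2 := by
  rw [← intervalIntegral.integral_add_adjacent_intervals (ps_ii 0 ((⌊y⌋ : ℤ) : ℝ)) (ps_ii _ y)]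
  have h1 := ps_per.intervalIntegral_add_zsmul_eq ⌊y⌋ 0 ps_ii
  rw [zero_add, zero_add, psi_one, smul_zero, zsmul_eq_mul, mul_one] at h1
  rw [h1, zero_add]
  have h2 : ‖∫ x in ((⌊y⌋ : ℤ) : ℝ)..y, ps x‖ ≤ 1 / 2 * |y - ((⌊y⌋ : ℤ) : ℝ)| :=
    intervalIntegral.norm_integral_le_of_norm_le_const fun x _ => by
      rw [Real.norm_eq_abs]; exact ps_le x
  rw [Real.norm_eq_abs] at h2
  have h3 : |y - ((⌊y⌋ : ℤ) : ℝ)| ≤ 1 := by
    rw [abs_le]
    constructor
    · linarith [Int.floor_le y]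
    · linarith [Int.lt_floor_add_one y]
  linarith

theorem pr_ne {u x : ℝ} (hx : x ≠ 0) : pr u x = x⁻¹ * ∫ w in (0 : ℝ)..(u * x), ps w := by
  unfold pr
  rw [intervalIntegral.integral_comp_mul_right ps hx, zero_mul, smul_eq_mul]

theorem pr_meas (u : ℝ) : Measurable (pr u) := by
  have h : pr u = fun x => if x = 0 then pr u 0 else x⁻¹ * ∫ w in (0 : ℝ)..(u * x), ps w := by
    funext x
    by_cases hx : x = 0
    · rw [if_pos hx, hx]
    · rw [if_neg hx, pr_ne hx]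
  rw [h]
  have hc : Continuous fun y : ℝ => ∫ w in (0 : ℝ)..y, ps w :=
    intervalIntegral.continuous_primitive ps_ii 0
  refine Measurable.ite (measurableSet_singleton 0) measurable_const ?_
  exact measurable_inv.mul (hc.measurable.comp (measurable_const_mul u))

theorem pr_le {m : ℕ} (hm : 1 ≤ m) (x : ℝ) : |pr (1 / (m : ℝ)) x| ≤ (1 + |x|)⁻¹ := by
  have hm1 : (1 : ℝ) ≤ m := by exact_mod_cast hm
  have h1 : |pr (1 / (m : ℝ)) x| ≤ 1 / 2 := by
    unfold pr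
    have h2 : ‖∫ v in (0 : ℝ)..(1 / (m : ℝ)), ps (v * x)‖ ≤ 1 / 2 * |1 / (m : ℝ) - 0| :=
      intervalIntegral.norm_integral_le_of_norm_le_const fun v _ => by
        rw [Real.norm_eq_abs]; exact ps_le _
    rw [Real.norm_eq_abs, sub_zero, abs_of_nonneg (show (0 : ℝ) ≤ 1 / (m : ℝ) by positivity)] at h2
    have h3 : 1 / (m : ℝ) ≤ 1 := by rw [div_le_one (by linarith)]; exact hm1
    linarith
  rcases le_or_gt |x| 1 with h | h
  · refine h1.trans ?_
    rw [one_div]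
    exact inv_anti₀ (by positivity) (by linarith)
  · have hx : x ≠ 0 := by rintro rfl; simp at h; linarith
    rw [pr_ne hx, abs_mul, abs_inv]
    have h2 := psi_le (1 / (m : ℝ) * x)
    have h3 : |x|⁻¹ * |∫ w in (0 : ℝ)..(1 / (m : ℝ) * x), ps w| ≤ |x|⁻¹ * (1 / 2) :=
      mul_le_mul_of_nonneg_left h2 (by positivity)
    refine h3.trans ?_
    rw [← one_div, ← one_div, div_mul_div_comm, one_mul]
    exact one_div_le_one_div_of_le (by positivity) (by linarith)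

theorem g_meas (K : ℕ) (b : ℕ → ℝ) : Measurable (g K b) := by
  unfold g
  exact Finset.measurable_sum _ fun m _ => (pr_meas _).const_mul _

theorem g_le (K : ℕ) (b : ℕ → ℝ) (x : ℝ) : |g K b x| ≤ BB K b * (1 + |x|)⁻¹ := by
  unfold g BB
  rw [Finset.sum_mul]
  refine (Finset.abs_sum_le_sum_abs _ _).trans (Finset.sum_le_sum fun m hm => ?_)
  rw [abs_mul]
  exact mul_le_mul_of_nonneg_left (pr_le (Finset.mem_Icc.1 hm).1 x) (abs_nonneg _)

theorem g_int {p : ℝ} (hp : 1 < p) (K : ℕ) (b : ℕ → ℝ) : Integrable (fun x : ℝ => |g K b x| ^ p) := by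
  have h1 : Integrable (fun x : ℝ => (1 + ‖x‖) ^ (-p)) :=
    integrable_one_add_norm (by simpa using hp)
  refine Integrable.mono' (h1.const_mul (BB K b ^ p))
    ((g_meas K b).abs.pow_const p).aestronglyMeasurable (Eventually.of_forall fun x => ?_)
  rw [Real.norm_eq_abs, abs_of_nonneg (by positivity), Real.norm_eq_abs]
  calc |g K b x| ^ p ≤ (BB K b * (1 + |x|)⁻¹) ^ p :=
        Real.rpow_le_rpow (abs_nonneg _) (g_le K b x) (by linarith)
    _ = BB K b ^ p * (1 + |x|) ^ (-p) := by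
      rw [Real.mul_rpow (BB_nonneg K b) (by positivity), Real.inv_rpow (by positivity),
        Real.rpow_neg (by positivity)]

/-! ## The mean square -/

theorem G_eq (K : ℕ) (b : ℕ → ℝ) (N : ℕ) (t : ℝ) : G K b N t =
    ∑ d ∈ Finset.Icc 1 N, (∑ m ∈ Finset.Icc 1 K, if d ≤ N / m then b m else 0) * ps ((d : ℝ) * t) := by
  unfold G S
  have h1 : ∀ d ∈ Finset.Icc 1 N, (∑ m ∈ Finset.Icc 1 K, if d ≤ N / m then b m else 0) * ps ((d : ℝ) * t) =
      ∑ m ∈ Finset.Icc 1 K, b m * (if d ≤ N / m then ps ((d : ℝ) * t) else 0) := by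
    intro d _
    rw [Finset.sum_mul]
    refine Finset.sum_congr rfl fun m _ => ?_
    split_ifs <;> ring
  rw [Finset.sum_congr rfl h1, Finset.sum_comm]
  refine Finset.sum_congr rfl fun m _ => ?_
  rw [← Finset.mul_sum, ← Finset.sum_filter]
  congr 1
  refine Finset.sum_congr ?_ fun _ _ => rfl
  ext d
  simp only [Finset.mem_Icc, Finset.mem_filter]
  have := Nat.div_le_self N m
  omega

theorem G_sq {A : ℝ} (hA : ∀ (N : ℕ) (c : ℕ → ℝ) (B : ℝ), 0 ≤ B → (∀ d ∈ Finset.Icc 1 N, |c d| ≤ B) →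
    ∫ t in (0 : ℝ)..1, (∑ d ∈ Finset.Icc 1 N, c d * ps ((d : ℝ) * t)) ^ 2 ≤ A * B ^ 2 * N)
    (K : ℕ) (b : ℕ → ℝ) (N : ℕ) : ∫ t in (0 : ℝ)..1, (G K b N t) ^ 2 ≤ A * BB K b ^ 2 * N := by
  have h := hA N (fun d => ∑ m ∈ Finset.Icc 1 K, if d ≤ N / m then b m else 0) (BB K b) (BB_nonneg K b)
    (fun d _ => by
      unfold BB
      refine (Finset.abs_sum_le_sum_abs _ _).trans (Finset.sum_le_sum fun m _ => ?_)
      split_ifs
      · exact le_rfl
      · rw [abs_zero]; exact abs_nonneg _)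
  simp only [G_eq]
  exact h

/-! ## The arcs -/

/-- the index set -/
def FQ (Q : ℕ) : Finset (Σ _ : ℕ, ℕ) :=
  (Finset.Icc 1 Q).sigma fun q => (Finset.range q).filter q.Coprime

theorem mem_FQ {Q : ℕ} {i : Σ _ : ℕ, ℕ} : i ∈ FQ Q ↔ (1 ≤ i.1 ∧ i.1 ≤ Q) ∧ i.2 < i.1 ∧ i.1.Coprime i.2 := by
  unfold FQ
  simp only [Finset.mem_sigma, Finset.mem_Icc, Finset.mem_filter, Finset.mem_range]

/-- the arc -/
def arc (X : ℝ) (N : ℕ) (i : Σ _ : ℕ, ℕ) : Set ℝ :=
  Icc ((((i.2 : ℕ) : ℤ) : ℝ) / ((i.1 : ℕ) : ℝ) + (-X) / (((i.1 : ℕ) : ℝ) * N))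
    ((((i.2 : ℕ) : ℤ) : ℝ) / ((i.1 : ℕ) : ℝ) + X / (((i.1 : ℕ) : ℝ) * N))

theorem arc_disj {Q N : ℕ} {X : ℝ} (hX : 1 ≤ X) (hN : 2 * Q * X < N) {i j : Σ _ : ℕ, ℕ} (hi : i ∈ FQ Q)
    (hj : j ∈ FQ Q) (hij : i ≠ j) : Disjoint (arc X N i) (arc X N j) := by
  rw [Set.disjoint_left]
  intro t hti htj
  apply hij
  obtain ⟨q, a⟩ := i
  obtain ⟨r, c⟩ := j
  rw [mem_FQ] at hi hj
  obtain ⟨⟨hq1, hqQ⟩, haq, hco⟩ := hi
  obtain ⟨⟨hr1, hrQ⟩, hcr, hco'⟩ := hj
  simp only at hq1 hqQ haq hco hr1 hrQ hcr hco'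
  unfold arc at hti htj
  simp only [mem_Icc, Int.cast_natCast] at hti htj
  have hq0 : (0 : ℝ) < q := by exact_mod_cast hq1
  have hr0 : (0 : ℝ) < r := by exact_mod_cast hr1
  have hqQ' : (q : ℝ) ≤ Q := by exact_mod_cast hqQ
  have hrQ' : (r : ℝ) ≤ Q := by exact_mod_cast hrQ
  have hN0 : (0 : ℝ) < N := lt_of_le_of_lt (by positivity) hN
  have e1 : X / ((q : ℝ) * N) * (q * r) = X * r / N := by field_simp
  have e2 : X / ((r : ℝ) * N) * (q * r) = X * q / N := by field_simp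
  have e3 : (a : ℝ) / q * (q * r) = a * r := by field_simp
  have e4 : (c : ℝ) / r * (q * r) = c * q := by field_simp
  have e5 : X * r / N + X * q / N < 1 := by
    rw [← add_div, div_lt_one hN0]
    have h1 : X * r ≤ X * Q := mul_le_mul_of_nonneg_left hrQ' (by linarith)
    have h2 : X * q ≤ X * Q := mul_le_mul_of_nonneg_left hqQ' (by linarith)
    nlinarith
  have hqr : (0 : ℝ) < q * r := mul_pos hq0 hr0
  have h1 : (a : ℝ) * r < c * q + 1 := by
    have h3 : (a : ℝ) / q ≤ c / r + X / (r * N) + X / (q * N) := by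
      have := hti.1
      have := htj.2
      rw [neg_div] at *
      linarith
    have h4 := mul_le_mul_of_nonneg_right h3 hqr.le
    rw [add_mul, add_mul, e1, e2, e3, e4] at h4
    linarith
  have h2 : (c : ℝ) * q < a * r + 1 := by
    have h3 : (c : ℝ) / r ≤ a / q + X / (r * N) + X / (q * N) := by
      have := htj.1
      have := hti.2
      rw [neg_div] at *
      linarith
    have h4 := mul_le_mul_of_nonneg_right h3 hqr.le
    rw [add_mul, add_mul, e1, e2, e3, e4] at h4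
    linarith
  have h1' : a * r < c * q + 1 := by exact_mod_cast h1
  have h2' : c * q < a * r + 1 := by exact_mod_cast h2
  have h3 : a * r = c * q := by omega
  have h4 : q ∣ r := hco.dvd_of_dvd_mul_left ⟨c, by rw [h3]; ring⟩
  have h5 : r ∣ q := hco'.dvd_of_dvd_mul_left ⟨a, by rw [← h3]; ring⟩
  have h6 : q = r := Nat.dvd_antisymm h4 h5
  subst h6
  have h7 : a = c := Nat.eq_of_mul_eq_mul_right (by omega) h3
  rw [h7]

theorem arc_sub {Q N : ℕ} {X : ℝ} (hX : 1 ≤ X) (hN : (Q + 1) * X ≤ N) {i : Σ _ : ℕ, ℕ} (hi : i ∈ FQ Q) :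
    arc X N i ⊆ Icc (-(X / N)) (1 - X / N) := by
  obtain ⟨q, a⟩ := i
  rw [mem_FQ] at hi
  obtain ⟨⟨hq1, hqQ⟩, haq, hco⟩ := hi
  simp only at hq1 hqQ haq hco
  unfold arc
  simp only [Int.cast_natCast]
  have hq0 : (1 : ℝ) ≤ q := by exact_mod_cast hq1
  have hqQ' : (q : ℝ) ≤ Q := by exact_mod_cast hqQ
  have haq' : (a : ℝ) + 1 ≤ q := by exact_mod_cast haq
  have hN0 : (0 : ℝ) < N := lt_of_lt_of_le (by positivity) hN
  have e1 : X / ((q : ℝ) * N) = X / N / q := by rw [div_div, mul_comm]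
  have h2 : 0 < X / N := by positivity
  have h3 : (q + 1) * (X / N) ≤ 1 := by
    rw [mul_div_assoc', div_le_one hN0]
    nlinarith
  refine Icc_subset_Icc ?_ ?_
  · rw [neg_div, e1]
    have h4 : X / N / q ≤ X / N := div_le_self h2.le hq0
    have h5 : (0 : ℝ) ≤ (a : ℝ) / q := by positivity
    linarith
  · rw [e1, ← add_div, div_le_iff₀ (by linarith)]
    nlinarith

/-- the minor arcs -/
theorem minor {A : ℝ} (hA0 : 0 < A)
    (hA : ∀ (N D q : ℕ) (a : ℤ) (X t : ℝ), D ≤ N → 1 ≤ q → IsCoprime a (q : ℤ) → 1 ≤ X →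
      (q : ℝ) * X ≤ N → |t - (a : ℝ) / q| ≤ X / (q * N) → |S D t| ≤ A * ((N : ℝ) / q + N / X))
    {Q N : ℕ} {X : ℝ} (hX : X = Q + 1) (hN : (Q + 1) * X ≤ N) {t : ℝ}
    (ht : t ∈ Icc (-(X / N)) (1 - X / N)) (hU : ∀ i ∈ FQ Q, t ∉ arc X N i) {D : ℕ} (hD : D ≤ N) :
    |S D t| ≤ A * (2 * N / (Q + 1)) := by
  have hQ0 : (0 : ℝ) ≤ Q := Nat.cast_nonneg Q
  have hX1 : 1 ≤ X := by rw [hX]; linarith
  have hX0 : 0 < X := by linarith
  have hN0 : (0 : ℝ) < N := lt_of_lt_of_le (by positivity) hN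
  have hNX : X ≤ N := by nlinarith
  have h1 : 1 ≤ (N : ℝ) / X := by rw [le_div_iff₀ hX0]; linarith
  have hn : 0 < ⌊(N : ℝ) / X⌋₊ := Nat.floor_pos.2 h1
  obtain ⟨r, hr1, hr2⟩ := Real.exists_rat_abs_sub_le_and_den_le t hn
  have hd0 : 1 ≤ r.den := r.den_pos
  have hd0' : (1 : ℝ) ≤ r.den := by exact_mod_cast hd0
  have hdX : (r.den : ℝ) * X ≤ N := by
    have h2 : (r.den : ℝ) ≤ (⌊(N : ℝ) / X⌋₊ : ℝ) := by exact_mod_cast hr2
    have h3 := Nat.floor_le (show 0 ≤ (N : ℝ) / X by positivity)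
    have h4 := h2.trans h3
    rwa [le_div_iff₀ hX0] at h4
  have hrc : ((r : ℚ) : ℝ) = (r.num : ℝ) / (r.den : ℝ) := by exact_mod_cast (Rat.num_div_den r).symm
  have hlt : |t - (r.num : ℝ) / (r.den : ℝ)| < X / ((r.den : ℝ) * N) := by
    rw [← hrc]
    refine lt_of_le_of_lt hr1 ?_
    have h3 := Nat.lt_floor_add_one ((N : ℝ) / X)
    rw [div_lt_iff₀ hX0] at h3
    rw [div_lt_div_iff₀ (by positivity) (by positivity)]
    nlinarith
  rcases le_or_gt r.den Q with hq | hq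
  · exfalso
    have hqQ' : (r.den : ℝ) ≤ Q := by exact_mod_cast hq
    have e1 : X / ((r.den : ℝ) * N) = X / N / r.den := by rw [div_div, mul_comm]
    have h2 : 0 < X / N := by positivity
    have h3 : ((r.den : ℝ) + 1) * (X / N) ≤ 1 := by
      rw [mul_div_assoc', div_le_one hN0]
      nlinarith
    rw [e1] at hlt
    have hlt' := abs_lt.1 hlt
    have ha0 : 0 ≤ r.num := by
      by_contra h
      have h4 : r.num ≤ -1 := by omega
      have h5 : (r.num : ℝ) ≤ -1 := by exact_mod_cast h4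
      have h6 : (r.num : ℝ) / r.den + X / N / r.den ≤ -(X / N) := by
        rw [← add_div, div_le_iff₀ (by linarith)]
        nlinarith
      have := ht.1
      linarith [hlt'.2]
    have haq : r.num < r.den := by
      by_contra h
      have h4 : (r.den : ℤ) ≤ r.num := not_lt.1 h
      have h5 : (r.den : ℝ) ≤ (r.num : ℝ) := by exact_mod_cast h4
      have h6 : 1 ≤ (r.num : ℝ) / r.den := by rw [le_div_iff₀ (by linarith)]; linarith
      have h7 : X / N / r.den ≤ X / N := div_le_self h2.le hd0'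
      have := ht.2
      linarith [hlt'.1]
    have hmem : (⟨r.den, r.num.toNat⟩ : Σ _ : ℕ, ℕ) ∈ FQ Q := by
      rw [mem_FQ]
      refine ⟨⟨hd0, hq⟩, by simp only; omega, ?_⟩
      have h4 := r.reduced
      have h5 : r.num.natAbs = r.num.toNat := by omega
      rw [h5] at h4
      exact h4.symm
    apply hU _ hmem
    unfold arc
    have h8 : (((r.num.toNat : ℕ) : ℤ) : ℝ) = (r.num : ℝ) := by
      rw [Int.toNat_of_nonneg ha0]
    simp only
    rw [h8, mem_Icc, neg_div, e1]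
    constructor <;> linarith [hlt'.1, hlt'.2]
  · refine (hA N D r.den r.num X t hD hd0 (Rat.isCoprime_num_den r) hX1 hdX hlt.le).trans ?_
    refine mul_le_mul_of_nonneg_left ?_ hA0.le
    have h2 : (Q : ℝ) + 1 ≤ r.den := by exact_mod_cast hq
    have h3 : (N : ℝ) / r.den ≤ N / (Q + 1) := div_le_div_of_nonneg_left hN0.le (by linarith) h2
    rw [hX]
    have h4 : 2 * (N : ℝ) / (Q + 1) = N / (Q + 1) + N / (Q + 1) := by ring
    rw [h4]
    linarith

/-! ## The limit -/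

/-- the contribution of the arcs -/
theorem arcs_tendsto (ar : J_AR) {p : ℝ} (hp : 1 ≤ p) (K : ℕ) (b : ℕ → ℝ) (Q : ℕ) {X : ℝ} (hX : 0 ≤ X) :
    Tendsto (fun N : ℕ => ∑ i ∈ FQ Q, (∫ t in arc X N i, |G K b N t| ^ p) / (N : ℝ) ^ (p - 1)) atTop
      (𝓝 ((∑ q ∈ Finset.Icc 1 Q, (q.totient : ℝ) / (q : ℝ) ^ (p + 1)) * ∫ x in (-X)..X, |g K b x| ^ p)) := by
  have h1 : ∀ i ∈ FQ Q, Tendsto (fun N : ℕ => (∫ t in arc X N i, |G K b N t| ^ p) / (N : ℝ) ^ (p - 1)) atTop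
      (𝓝 (1 / ((i.1 : ℕ) : ℝ) ^ (p + 1) * ∫ x in (-X)..X, |g K b x| ^ p)) := by
    intro i hi
    have hi' := mem_FQ.1 hi
    have h := ar p K b i.1 ((i.2 : ℕ) : ℤ) (-X) X hp hi'.1.1 (Nat.isCoprime_iff_coprime.2 hi'.2.2.symm)
      (by linarith)
    refine h.congr fun N => ?_
    have h2 : 0 ≤ X / (((i.1 : ℕ) : ℝ) * N) := by positivity
    have h3 : -X / (((i.1 : ℕ) : ℝ) * N) = -(X / (((i.1 : ℕ) : ℝ) * N)) := neg_div _ _
    unfold arc
    rw [intervalIntegral.integral_of_le (by rw [h3]; linarith), integral_Icc_eq_integral_Ioc]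
  have h2 := tendsto_finsetSum (FQ Q) h1
  have h3 : ∑ i ∈ FQ Q, 1 / ((i.1 : ℕ) : ℝ) ^ (p + 1) * ∫ x in (-X)..X, |g K b x| ^ p =
      (∑ q ∈ Finset.Icc 1 Q, (q.totient : ℝ) / (q : ℝ) ^ (p + 1)) * ∫ x in (-X)..X, |g K b x| ^ p := by
    rw [← Finset.sum_mul]
    congr 1
    unfold FQ
    rw [Finset.sum_sigma]
    refine Finset.sum_congr rfl fun q _ => ?_
    have e : ∀ s ∈ (Finset.range q).filter q.Coprime,
        1 / (((⟨q, s⟩ : Σ _ : ℕ, ℕ).1 : ℕ) : ℝ) ^ (p + 1) = 1 / (q : ℝ) ^ (p + 1) := fun _ _ => rfl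
    rw [Finset.sum_congr rfl e, Finset.sum_const, nsmul_eq_mul, ← Nat.totient_eq_card_coprime]
    ring
  rw [h3] at h2
  exact h2

theorem meas_f (K : ℕ) (b : ℕ → ℝ) (N : ℕ) (p : ℝ) : Measurable fun t => |G K b N t| ^ p :=
  (G_meas K b N).abs.pow_const p

theorem bd_f (K : ℕ) (b : ℕ → ℝ) (N : ℕ) {p : ℝ} (hp : 0 ≤ p) (t : ℝ) :
    |(|G K b N t| ^ p)| ≤ (BB K b * N) ^ p := by
  rw [abs_of_nonneg (by positivity)]
  exact Real.rpow_le_rpow (abs_nonneg _) (G_le K b N t) hp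

theorem bd_sq (K : ℕ) (b : ℕ → ℝ) (N : ℕ) (t : ℝ) : |(G K b N t) ^ 2| ≤ (BB K b * N) ^ 2 := by
  rw [abs_pow]
  exact pow_le_pow_left₀ (abs_nonneg _) (G_le K b N t) 2

/-- shifting the period -/
theorem period {f : ℝ → ℝ} (hf : Function.Periodic f 1) (c : ℝ) :
    ∫ t in Icc (-c) (1 - c), f t = ∫ t in (0 : ℝ)..1, f t := by
  rw [integral_Icc_eq_integral_Ioc, ← intervalIntegral.integral_of_le (by linarith)]
  have h := hf.intervalIntegral_add_eq (-c) 0
  rw [zero_add] at h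
  rw [← h]
  congr 1
  ring

/-- the main inequality -/
theorem main_ineq {A A2 : ℝ} (hA0 : 0 < A)
    (hA2 : ∀ (N : ℕ) (c : ℕ → ℝ) (B : ℝ), 0 ≤ B → (∀ d ∈ Finset.Icc 1 N, |c d| ≤ B) →
      ∫ t in (0 : ℝ)..1, (∑ d ∈ Finset.Icc 1 N, c d * ps ((d : ℝ) * t)) ^ 2 ≤ A2 * B ^ 2 * N)
    (hA : ∀ (N D q : ℕ) (a : ℤ) (X t : ℝ), D ≤ N → 1 ≤ q → IsCoprime a (q : ℤ) → 1 ≤ X →
      (q : ℝ) * X ≤ N → |t - (a : ℝ) / q| ≤ X / (q * N) → |S D t| ≤ A * ((N : ℝ) / q + N / X))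
    {p : ℝ} (hp : 2 < p) (K : ℕ) (b : ℕ → ℝ) {Q N : ℕ} (hN : 2 * ((Q : ℝ) + 1) ^ 2 < N) :
    |(∫ t in (0 : ℝ)..1, |G K b N t| ^ p) / (N : ℝ) ^ (p - 1) -
      ∑ i ∈ FQ Q, (∫ t in arc ((Q : ℝ) + 1) N i, |G K b N t| ^ p) / (N : ℝ) ^ (p - 1)| ≤
      (BB K b * (A * (2 / ((Q : ℝ) + 1)))) ^ (p - 2) * (A2 * BB K b ^ 2) := by
  set X : ℝ := (Q : ℝ) + 1 with hX
  have hQ0 : (0 : ℝ) ≤ Q := Nat.cast_nonneg Q
  have hX1 : 1 ≤ X := by rw [hX]; linarith
  have hN0 : (0 : ℝ) < N := lt_of_le_of_lt (by positivity) hN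
  have hN1 : ((Q : ℝ) + 1) * X ≤ N := by nlinarith
  have hN2 : 2 * (Q : ℝ) * X < N := by nlinarith
  set f : ℝ → ℝ := fun t => |G K b N t| ^ p with hf
  have hfm : Measurable f := meas_f K b N p
  have hfp : Function.Periodic f 1 := fun t => by simp only [hf, G_per K b N t]
  have hf0 : ∀ t, 0 ≤ f t := fun t => by simp only [hf]; positivity
  have hfi : ∀ s : Set ℝ, volume s ≠ ⊤ → IntegrableOn f s := fun s hs =>
    bdd_int hfm (bd_f K b N (by linarith)) s hs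
  set P : Set ℝ := Icc (-(X / N)) (1 - X / N) with hP
  set U : Set ℝ := ⋃ i ∈ FQ Q, arc X N i with hUdef
  have hPv : volume P ≠ ⊤ := by simp [hP]
  have hUm : MeasurableSet U := Finset.measurableSet_biUnion _ fun i _ => measurableSet_Icc
  have hUP : U ⊆ P := iUnion₂_subset fun i hi => arc_sub hX1 hN1 hi
  have h1 : ∫ t in (0 : ℝ)..1, f t = ∫ t in P, f t := (period hfp (X / N)).symm
  have h2 : ∫ t in P, f t = (∑ i ∈ FQ Q, ∫ t in arc X N i, f t) + ∫ t in P \ U, f t := by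
    rw [← integral_inter_add_sdiff hUm (hfi P hPv), inter_eq_self_of_subset_right hUP]
    congr 1
    exact integral_biUnion_finset (FQ Q) (fun i _ => measurableSet_Icc)
      (fun i hi j hj hij => arc_disj hX1 hN2 hi hj hij) (fun i _ => hfi _ (by simp [arc]))
  set M : ℝ := BB K b * (A * (2 * N / (Q + 1))) with hM
  have hM0 : 0 ≤ M := mul_nonneg (BB_nonneg K b) (by positivity)
  have h3 : ∫ t in P \ U, f t ≤ M ^ (p - 2) * (A2 * BB K b ^ 2 * N) := by
    have hsq : ∀ s : Set ℝ, volume s ≠ ⊤ → IntegrableOn (fun t => M ^ (p - 2) * (G K b N t) ^ 2) s :=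
      fun s hs => (bdd_int ((G_meas K b N).pow_const 2) (bd_sq K b N) s hs).const_mul _
    have hPU : volume (P \ U) ≠ ⊤ := ne_top_of_le_ne_top hPv (measure_mono sdiff_subset)
    calc ∫ t in P \ U, f t ≤ ∫ t in P \ U, M ^ (p - 2) * (G K b N t) ^ 2 := by
          refine setIntegral_mono_on (hfi _ hPU) (hsq _ hPU) (measurableSet_Icc.diff hUm) ?_
          intro t ht
          have hb : |G K b N t| ≤ M := by
            refine G_bd fun m _ => ?_
            exact minor hA0 hA hX hN1 ht.1 (fun i hi hti => ht.2 (mem_biUnion hi hti))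
              (Nat.div_le_self N m)
          have e : |G K b N t| ^ p = |G K b N t| ^ (p - 2) * (G K b N t) ^ 2 := by
            have := Real.rpow_add_of_nonneg (abs_nonneg (G K b N t)) (show 0 ≤ p - 2 by linarith)
              (show (0 : ℝ) ≤ 2 by norm_num)
            rw [sub_add_cancel, Real.rpow_two, sq_abs] at this
            exact this
          simp only [hf]
          rw [e]
          exact mul_le_mul_of_nonneg_right (Real.rpow_le_rpow (abs_nonneg _) hb (by linarith))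
            (sq_nonneg _)
      _ ≤ ∫ t in P, M ^ (p - 2) * (G K b N t) ^ 2 :=
          setIntegral_mono_set (hsq P hPv)
            (Eventually.of_forall fun t => mul_nonneg (Real.rpow_nonneg hM0 _) (sq_nonneg _))
            (Eventually.of_forall fun t ht => ht.1)
      _ = M ^ (p - 2) * ∫ t in (0 : ℝ)..1, (G K b N t) ^ 2 := by
          rw [integral_const_mul]
          congr 1
          exact period (fun t => by simp only [G_per K b N t]) (X / N)
      _ ≤ _ := mul_le_mul_of_nonneg_left (G_sq hA2 K b N) (Real.rpow_nonneg hM0 _)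
  have h4 : 0 ≤ ∫ t in P \ U, f t := setIntegral_nonneg (measurableSet_Icc.diff hUm) fun t _ => hf0 t
  have hNp : 0 < (N : ℝ) ^ (p - 1) := Real.rpow_pos_of_pos hN0 _
  have h5 : (∫ t in (0 : ℝ)..1, f t) / (N : ℝ) ^ (p - 1) -
      ∑ i ∈ FQ Q, (∫ t in arc X N i, f t) / (N : ℝ) ^ (p - 1) =
      (∫ t in P \ U, f t) / (N : ℝ) ^ (p - 1) := by
    rw [h1, h2, ← Finset.sum_div]
    ring
  rw [h5, abs_of_nonneg (div_nonneg h4 hNp.le), div_le_iff₀ hNp]
  refine h3.trans (le_of_eq ?_)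
  have e1 : M = (N : ℝ) * (BB K b * (A * (2 / ((Q : ℝ) + 1)))) := by
    rw [hM]
    ring
  have e2 : (N : ℝ) ^ (p - 1) = (N : ℝ) ^ (p - 2) * N := by
    have := Real.rpow_add_one hN0.ne' (p - 2)
    rw [← this]
    congr 1
    ring
  rw [e1, Real.mul_rpow hN0.le (mul_nonneg (BB_nonneg K b) (by positivity)), e2]
  ring

theorem approx {a T E : ℕ → ℝ} {l : ℝ} (hT : Tendsto T atTop (𝓝 l)) (hE : Tendsto E atTop (𝓝 0))
    (h : ∀ Q, ∀ᶠ N in atTop, |a N - T Q| ≤ E Q) : Tendsto a atTop (𝓝 l) := by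
  rw [Metric.tendsto_atTop]
  intro ε hε
  have h1 : ∀ᶠ Q in atTop, |T Q - l| < ε / 2 := by
    have := (Metric.tendsto_atTop.1 hT) (ε / 2) (by linarith)
    obtain ⟨n, hn⟩ := this
    filter_upwards [eventually_ge_atTop n] with Q hQ
    exact hn Q hQ
  have h2 : ∀ᶠ Q in atTop, E Q < ε / 2 := hE.eventually_lt_const (by linarith)
  obtain ⟨Q, hQ1, hQ2⟩ := (h1.and h2).exists
  obtain ⟨n, hn⟩ := eventually_atTop.1 (h Q)
  refine ⟨n, fun N hN => ?_⟩
  rw [Real.dist_eq]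
  have h3 := hn N hN
  have h4 : a N - l = (a N - T Q) + (T Q - l) := by ring
  rw [h4]
  refine lt_of_le_of_lt (abs_add_le _ _) ?_
  linarith

theorem tot_sum {p : ℝ} (hp : 2 < p) : Summable (fun q : ℕ => (q.totient : ℝ) / (q : ℝ) ^ (p + 1)) := by
  have h1 : Summable (fun q : ℕ => 1 / (q : ℝ) ^ p) := Real.summable_one_div_nat_rpow.2 (by linarith)
  refine Summable.of_nonneg_of_le (fun q => by positivity) (fun q => ?_) h1
  rcases Nat.eq_zero_or_pos q with rfl | hq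
  · simp only [Nat.totient_zero, Nat.cast_zero, zero_div]
    positivity
  · have hq0 : (0 : ℝ) < q := by exact_mod_cast hq
    have h2 : (q.totient : ℝ) ≤ q := by exact_mod_cast Nat.totient_le q
    rw [Real.rpow_add_one hq0.ne', div_le_div_iff₀ (by positivity) (by positivity)]
    have h3 : 0 < (q : ℝ) ^ p := by positivity
    nlinarith

/-- **AS** -/
theorem t_AS (l2 : J_L2) (mi : J_MI) (ar : J_AR) : J_AS := by
  intro p K b hp
  have hgi := g_int (show 1 < p by linarith) K b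
  have hts := tot_sum hp
  refine ⟨hgi, hts, ?_⟩
  obtain ⟨A2, hA2p, hA2⟩ := l2
  obtain ⟨A, hA0, hA⟩ := mi
  have hT : Tendsto (fun Q : ℕ => (∑ q ∈ Finset.Icc 1 Q, (q.totient : ℝ) / (q : ℝ) ^ (p + 1)) *
      ∫ x in (-((Q : ℝ) + 1))..((Q : ℝ) + 1), |g K b x| ^ p) atTop
      (𝓝 ((∑' q : ℕ, (q.totient : ℝ) / (q : ℝ) ^ (p + 1)) * ∫ x : ℝ, |g K b x| ^ p)) := by
    refine Tendsto.mul ?_ ?_
    · have h1 := hts.hasSum.tendsto_sum_nat.comp (tendsto_add_atTop_nat 1)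
      refine h1.congr fun Q => ?_
      simp only [Function.comp]
      rw [Finset.range_eq_Ico, Finset.sum_eq_sum_Ico_succ_bot (by omega)]
      simp only [Nat.totient_zero, Nat.cast_zero, zero_div, zero_add]
      rfl
    · have h1 : Tendsto (fun Q : ℕ => (Q : ℝ) + 1) atTop atTop :=
        tendsto_atTop_add_const_right _ _ tendsto_natCast_atTop_atTop
      exact intervalIntegral_tendsto_integral hgi (tendsto_neg_atTop_atBot.comp h1) h1
  have hE : Tendsto (fun Q : ℕ => (BB K b * (A * (2 / ((Q : ℝ) + 1)))) ^ (p - 2) * (A2 * BB K b ^ 2) +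
      1 / ((Q : ℝ) + 1)) atTop (𝓝 0) := by
    have h1 : Tendsto (fun Q : ℕ => 1 / ((Q : ℝ) + 1)) atTop (𝓝 0) := tendsto_one_div_add_atTop_nhds_zero_nat
    have h2 : Tendsto (fun Q : ℕ => BB K b * (A * (2 / ((Q : ℝ) + 1)))) atTop (𝓝 0) := by
      have := h1.const_mul (BB K b * A * 2)
      rw [mul_zero] at this
      refine this.congr fun Q => ?_
      ring
    have h3 := h2.rpow_const (p := p - 2) (Or.inr (by linarith))
    rw [Real.zero_rpow (by linarith)] at h3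
    have h4 := (h3.mul_const (A2 * BB K b ^ 2)).add h1
    rw [zero_mul, zero_add] at h4
    exact h4
  refine approx hT hE fun Q => ?_
  have hlim := arcs_tendsto ar (show 1 ≤ p by linarith) K b Q (X := (Q : ℝ) + 1) (by positivity)
  have h1 : ∀ᶠ N : ℕ in atTop, 2 * ((Q : ℝ) + 1) ^ 2 < N :=
    tendsto_natCast_atTop_atTop.eventually_gt_atTop _
  have h2 := (Metric.tendsto_atTop.1 hlim) (1 / ((Q : ℝ) + 1)) (by positivity)
  obtain ⟨n, hn⟩ := h2
  filter_upwards [h1, eventually_ge_atTop n] with N hN1 hN2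
  have h3 := main_ineq hA0 hA2 hA hp K b hN1
  have h4 := hn N hN2
  rw [Real.dist_eq] at h4
  set x1 := (∫ t in (0 : ℝ)..1, |G K b N t| ^ p) / (N : ℝ) ^ (p - 1)
  set x2 := ∑ i ∈ FQ Q, (∫ t in arc ((Q : ℝ) + 1) N i, |G K b N t| ^ p) / (N : ℝ) ^ (p - 1)
  have h5 : ∀ y : ℝ, x1 - y = (x1 - x2) + (x2 - y) := fun y => by ring
  rw [h5]
  refine (abs_add_le _ _).trans ?_
  linarith

end Pool.Agent.Q129.FA
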